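import Pool.Agent.H21SS.TaskC_helper802

/-! Coefficients of `ω + cosh ω - 1` for Schwarz functions `ω`. -/

set_option autoImplicit false

open Set Metric

namespace Pool.Agent.Q301.LC
open Pool.Agent.H21SS Pool.Agent.H21SS.C802

theorem norm_sinh_le (z : ℂ) : ‖Complex.sinh z‖ ≤ Real.sinh ‖z‖ := by
  have h1 := Complex.hasSum_sinh z
  have h2 := Real.hasSum_sinh ‖z‖
  rw [← h1.tsum_eq]
  refine tsum_of_norm_bounded h2 fun n => ?_
  rw [norm_div, norm_pow, Complex.norm_natCast]

/-- the entire function `sinh (w / 2) / w` -/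
noncomputable def T (w : ℂ) : ℂ := dslope (fun w : ℂ => Complex.sinh (w / 2)) 0 w

theorem T_mul (w : ℂ) : w * T w = Complex.sinh (w / 2) := by
  have h := sub_smul_dslope (fun w : ℂ => Complex.sinh (w / 2)) 0 w
  simpa [T] using h

theorem T_diff : Differentiable ℂ T := by
  intro w
  have h : DifferentiableOn ℂ (dslope (fun w : ℂ => Complex.sinh (w / 2)) 0) univ :=
    (Complex.differentiableOn_dslope Filter.univ_mem).2 (by fun_prop)
  exact h.differentiableAt Filter.univ_mem

theorem T_le {w : ℂ} (hw : ‖w‖ < 1) : ‖T w‖ ≤ Real.sinh (1 / 2) := by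
  have h := Complex.norm_dslope_le_div_of_mapsTo_ball (f := fun w : ℂ => Complex.sinh (w / 2))
    (c := 0) (R₁ := 1) (R₂ := Real.sinh (1 / 2)) (z := w) (by fun_prop) (by
      intro z hz
      rw [mem_ball_zero_iff] at hz
      simp only [zero_div, Complex.sinh_zero, mem_closedBall_zero_iff]
      refine (norm_sinh_le _).trans ?_
      rw [Real.sinh_le_sinh, norm_div]
      simp only [Complex.norm_ofNat]
      linarith) (by simpa using hw)
  simpa [T] using h

theorem cosh_sub_one (w : ℂ) : Complex.cosh w - 1 = 2 * (Complex.sinh (w / 2) * Complex.sinh (w / 2)) := by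
  have h1 : w = 2 * (w / 2) := by ring
  conv_lhs => rw [h1]
  rw [Complex.cosh_two_mul, Complex.cosh_sq]
  ring

theorem kappa_eq : Real.cosh 1 - 1 = 2 * Real.sinh (1 / 2) ^ 2 := by
  have h1 : (1 : ℝ) = 2 * (1 / 2) := by norm_num
  conv_lhs => rw [h1]
  rw [Real.cosh_two_mul, Real.cosh_sq]
  ring

theorem cf_add {F G : ℂ → ℂ} (hF : ContinuousOn F (sphere 0 1)) (hG : ContinuousOn G (sphere 0 1))
    (k : ℕ) : cf (fun z => F z + G z) k = cf F k + cf G k := by
  have hinv : ContinuousOn (fun z : ℂ => (z ^ k)⁻¹) (sphere (0 : ℂ) 1) := by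
    apply ContinuousOn.inv₀ (by fun_prop)
    intro z hz
    refine pow_ne_zero _ ?_
    rintro rfl
    simp at hz
  have h := Real.circleAverage_fun_add (f₁ := fun z => F z * (z ^ k)⁻¹)
    (f₂ := fun z => G z * (z ^ k)⁻¹) (cI (hF.mul hinv)) (cI (hG.mul hinv))
  unfold cf
  rw [← h]
  congr 1
  funext z
  ring

theorem cf_smul {F : ℂ → ℂ} (c : ℂ) (k : ℕ) : cf (fun z => c * F z) k = c * cf F k := by
  unfold cf
  rw [← smul_eq_mul, ← Real.circleAverage_fun_smul]
  congr 1
  funext z
  simp only [smul_eq_mul]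
  ring

theorem cf_poly (p : Polynomial ℂ) (k : ℕ) : cf (fun z => p.eval z) k = p.coeff k := by
  have hinv : ContinuousOn (fun z : ℂ => (z ^ k)⁻¹) (sphere (0 : ℂ) 1) := by
    apply ContinuousOn.inv₀ (by fun_prop)
    intro z hz
    refine pow_ne_zero _ ?_
    rintro rfl
    simp at hz
  have h1 : ∀ c : ℂ, ∀ m : ℕ, cf (fun z => c * z ^ m) k = if k = m then c else 0 := by
    intro c m
    rw [cf_smul, cf_eq_tc (fun z => z ^ m) 2 (by norm_num) (by fun_prop), tc_pow]
    split_ifs <;> simp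
  induction p using Polynomial.induction_on' with
  | add p q hp hq =>
    have h2 : (fun z => (p + q).eval z) = fun z => p.eval z + q.eval z := by
      funext z; rw [Polynomial.eval_add]
    rw [h2, cf_add p.continuous.continuousOn q.continuous.continuousOn, hp, hq,
      Polynomial.coeff_add]
  | monomial m c =>
    have h2 : (fun z => (Polynomial.monomial m c).eval z) = fun z => c * z ^ m := by
      funext z; rw [Polynomial.eval_monomial]
    rw [h2, h1, Polynomial.coeff_monomial]
    by_cases h : k = m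
    · rw [if_pos h, if_pos h.symm]
    · rw [if_neg h, if_neg (fun h' => h h'.symm)]

/-- The main estimate. -/
theorem main (Ω : ℂ → ℂ) (R : ℝ) (hR : 1 < R) (hΩ : DifferentiableOn ℂ Ω (ball 0 R))
    (h0 : Ω 0 = 0) (h1 : ∀ z ∈ ball (0 : ℂ) R, ‖Ω z‖ < 1) (n : ℕ) (hn : 1 ≤ n) :
    ‖cf (fun z => Ω z + Complex.cosh (Ω z) - 1) n‖ ≤
      ‖cf Ω n‖ + (Real.cosh 1 - 1) * (1 - ‖cf Ω n‖ ^ 2) := by
  classical
  have hsub : sphere (0 : ℂ) 1 ⊆ ball 0 R := by
    intro z hz
    rw [mem_sphere_zero_iff_norm] at hz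
    rw [mem_ball_zero_iff, hz]
    exact hR
  have hS : DifferentiableOn ℂ (fun z => Complex.sinh (Ω z / 2)) (ball 0 R) :=
    Complex.differentiable_sinh.comp_differentiableOn (hΩ.div_const 2)
  have hTΩ : DifferentiableOn ℂ (fun z => T (Ω z)) (ball 0 R) := T_diff.comp_differentiableOn hΩ
  set s : ℕ → ℂ := fun k => cf (fun z => Complex.sinh (Ω z / 2)) k with hs
  set c : ℕ → ℂ := fun k => cf Ω k with hc
  have hs0 : s 0 = 0 := by
    simp only [hs]
    rw [cf_eq_tc _ R hR hS]
    simp [tc, h0]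
  -- step 1
  have e1 : cf (fun z => Ω z + Complex.cosh (Ω z) - 1) n =
      c n + 2 * ∑ k ∈ Finset.range (n + 1), s k * s (n - k) := by
    have h2 : (fun z => Ω z + Complex.cosh (Ω z) - 1) =
        fun z => Ω z + 2 * (Complex.sinh (Ω z / 2) * Complex.sinh (Ω z / 2)) := by
      funext z
      rw [← cosh_sub_one]
      ring
    have hSS : ContinuousOn (fun z => 2 * (Complex.sinh (Ω z / 2) * Complex.sinh (Ω z / 2)))
        (sphere (0 : ℂ) 1) := continuousOn_const.mul ((hS.mul hS).continuousOn.mono hsub)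
    rw [h2, cf_add (hΩ.continuousOn.mono hsub) hSS, cf_smul, cf_mul _ _ R hR hS hS]
  -- step 2
  have e2 : ∑ k ∈ Finset.range (n + 1), ‖s k‖ * ‖s (n - k)‖ ≤ ∑ k ∈ Finset.range n, ‖s k‖ ^ 2 := by
    set v : ℕ → ℝ := fun k => if k < n then ‖s k‖ ^ 2 else 0 with hv
    have hv0 : ∀ k, 0 ≤ v k := by
      intro k
      simp only [hv]
      split_ifs <;> positivity
    have h3 : ∀ k ∈ Finset.range (n + 1), ‖s k‖ * ‖s (n - k)‖ ≤ (v k + v (n - k)) / 2 := by
      intro k hk
      rw [Finset.mem_range] at hk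
      rcases Nat.eq_zero_or_pos k with h4 | h4
      · subst h4
        rw [hs0, norm_zero, zero_mul]
        have := hv0 0
        have := hv0 (n - 0)
        linarith
      · by_cases h5 : k = n
        · subst h5
          rw [Nat.sub_self, hs0, norm_zero, mul_zero]
          have := hv0 k
          have := hv0 0
          linarith
        · simp only [hv]
          rw [if_pos (by omega), if_pos (by omega)]
          nlinarith [sq_nonneg (‖s k‖ - ‖s (n - k)‖)]
    refine (Finset.sum_le_sum h3).trans (le_of_eq ?_)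
    rw [← Finset.sum_div, Finset.sum_add_distrib]
    have h6 : ∑ k ∈ Finset.range (n + 1), v (n - k) = ∑ k ∈ Finset.range (n + 1), v k := by
      have := Finset.sum_range_reflect v (n + 1)
      simpa using this
    rw [h6, Finset.sum_range_succ]
    have h7 : v n = 0 := by simp [hv]
    have h8 : ∑ k ∈ Finset.range n, v k = ∑ k ∈ Finset.range n, ‖s k‖ ^ 2 := by
      refine Finset.sum_congr rfl fun k hk => ?_
      rw [Finset.mem_range] at hk
      simp [hv, hk]
    rw [h7, h8]
    ring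
  -- step 3
  set p : Polynomial ℂ := ∑ k ∈ Finset.range n, Polynomial.monomial k (c k) with hp
  have hcoeff : ∀ k, p.coeff k = if k ∈ Finset.range n then c k else 0 := by
    intro k
    rw [hp, Polynomial.finsetSum_coeff]
    simp only [Polynomial.coeff_monomial]
    rw [Finset.sum_ite_eq']
  have hsupp : p.support ⊆ Finset.range n := by
    intro k hk
    rw [Polynomial.mem_support_iff, hcoeff] at hk
    by_contra h
    rw [if_neg h] at hk
    exact hk rfl
  have hpars : Real.circleAverage (fun z => ‖p.eval z‖ ^ 2) 0 1 =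
      ∑ k ∈ Finset.range n, ‖c k‖ ^ 2 := by
    rw [← Polynomial.sum_sq_norm_coeff_eq_circleAverage]
    rw [Finset.sum_subset hsupp]
    · apply Finset.sum_congr rfl
      intro k hk
      rw [hcoeff, if_pos hk]
    · intro k _ hk
      rw [Polynomial.notMem_support_iff] at hk
      rw [hk]; simp
  have hpd : DifferentiableOn ℂ (fun z => p.eval z) (ball 0 R) := p.differentiable.differentiableOn
  have e3 : ∀ k < n, cf (fun z => p.eval z * T (Ω z)) k = s k := by
    intro k hk
    have h9 : s k = cf (fun z => Ω z * T (Ω z)) k := by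
      simp only [hs]
      congr 1
      funext z
      rw [T_mul]
    rw [h9, cf_mul _ _ R hR hpd hTΩ, cf_mul _ _ R hR hΩ hTΩ]
    refine Finset.sum_congr rfl fun j hj => ?_
    rw [Finset.mem_range] at hj
    rw [cf_poly, hcoeff, if_pos (Finset.mem_range.2 (by omega))]
  have e4 : ∑ k ∈ Finset.range n, ‖s k‖ ^ 2 ≤
      Real.sinh (1 / 2) ^ 2 * ∑ k ∈ Finset.range n, ‖c k‖ ^ 2 := by
    have hH : ContinuousOn (fun z => p.eval z * T (Ω z)) (sphere 0 1) :=
      (hpd.mul hTΩ).continuousOn.mono hsub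
    have h10 := bessel (fun z => p.eval z * T (Ω z)) hH (Finset.range n)
    have h11 : ∑ k ∈ Finset.range n, ‖cf (fun z => p.eval z * T (Ω z)) k‖ ^ 2 =
        ∑ k ∈ Finset.range n, ‖s k‖ ^ 2 := by
      refine Finset.sum_congr rfl fun k hk => ?_
      rw [e3 k (Finset.mem_range.1 hk)]
    rw [h11] at h10
    refine h10.trans ?_
    rw [← hpars]
    have h12 : Real.circleAverage (fun z => ‖p.eval z * T (Ω z)‖ ^ 2) 0 1 ≤
        Real.circleAverage (fun z => Real.sinh (1 / 2) ^ 2 * ‖p.eval z‖ ^ 2) 0 1 := by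
      refine Real.circleAverage_mono (cIr (hH.norm.pow 2))
        (cIr (continuousOn_const.mul ((p.continuous.norm.pow 2).continuousOn))) ?_
      intro z hz
      have hz' : z ∈ sphere (0 : ℂ) 1 := by simpa using hz
      have h13 := T_le (h1 z (hsub hz'))
      have h14 : 0 ≤ ‖T (Ω z)‖ := norm_nonneg _
      simp only [norm_mul, mul_pow]
      have h15 : ‖T (Ω z)‖ ^ 2 ≤ Real.sinh (1 / 2) ^ 2 := by gcongr
      nlinarith [sq_nonneg ‖p.eval z‖]
    refine h12.trans (le_of_eq ?_)
    have h16 := Real.circleAverage_fun_smul (a := Real.sinh (1 / 2) ^ 2)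
      (f := fun z => ‖p.eval z‖ ^ 2) (c := 0) (R := 1)
    simpa only [smul_eq_mul] using h16
  -- step 4
  have e5 : ∑ k ∈ Finset.range n, ‖c k‖ ^ 2 + ‖c n‖ ^ 2 ≤ 1 := by
    have h17 := bessel Ω (hΩ.continuousOn.mono hsub) (Finset.range (n + 1))
    rw [Finset.sum_range_succ] at h17
    refine h17.trans ?_
    refine Real.circleAverage_mono_on_of_le_circle
      (cIr ((hΩ.continuousOn.mono hsub).norm.pow 2)) ?_
    intro z hz
    have hz' : z ∈ sphere (0 : ℂ) 1 := by simpa using hz
    have h18 := h1 z (hsub hz')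
    have h19 : 0 ≤ ‖Ω z‖ := norm_nonneg _
    nlinarith
  -- conclusion
  rw [e1]
  refine (norm_add_le _ _).trans ?_
  have e6 : ‖(2 : ℂ) * ∑ k ∈ Finset.range (n + 1), s k * s (n - k)‖ ≤
      2 * ∑ k ∈ Finset.range (n + 1), ‖s k‖ * ‖s (n - k)‖ := by
    rw [norm_mul, Complex.norm_ofNat]
    refine mul_le_mul_of_nonneg_left ?_ (by norm_num)
    refine (norm_sum_le _ _).trans (le_of_eq ?_)
    refine Finset.sum_congr rfl fun k _ => ?_
    rw [norm_mul]
  rw [kappa_eq]
  have e7 : 0 ≤ Real.sinh (1 / 2) ^ 2 := sq_nonneg _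
  nlinarith [e6, e2, e4, e5]

end Pool.Agent.Q301.LC
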