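import Pool.Agent.Q301.LC.Core

/-! The coefficients of `ω + cosh ω - 1` of index at most `6`. -/

set_option autoImplicit false

open Set Metric

namespace Pool.Agent.Q301.LC
open Pool.Agent.H21SS Pool.Agent.H21SS.C802

theorem pointwise (w u : ℂ) (hw : ‖w‖ ≤ 1) (hu : ‖u‖ = 1) :
    1 / 4 * ‖(w - u) * (1 + w)‖ ^ 2 ≤
      (1 + w - u / 2 - (w + w ^ 2 / 2) * (starRingEnd ℂ) u).re := by
  have h1 : w.re ^ 2 + w.im ^ 2 ≤ 1 := by
    have h := Complex.sq_norm w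
    rw [Complex.normSq_apply] at h
    nlinarith [norm_nonneg w]
  have h2 : u.re ^ 2 + u.im ^ 2 = 1 := by
    have h := Complex.sq_norm u
    rw [Complex.normSq_apply, hu] at h
    nlinarith
  have h3 : ‖(w - u) * (1 + w)‖ ^ 2 =
      ((w.re - u.re) ^ 2 + (w.im - u.im) ^ 2) * ((1 + w.re) ^ 2 + w.im ^ 2) := by
    rw [norm_mul, mul_pow, Complex.sq_norm, Complex.sq_norm, Complex.normSq_apply,
      Complex.normSq_apply]
    simp only [Complex.sub_re, Complex.sub_im, Complex.add_re, Complex.add_im, Complex.one_re,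
      Complex.one_im]
    ring
  have h4 : (1 + w - u / 2 - (w + w ^ 2 / 2) * (starRingEnd ℂ) u).re =
      1 + w.re - u.re / 2 - ((w.re + (w.re ^ 2 - w.im ^ 2) / 2) * u.re +
        (w.im + w.re * w.im) * u.im) := by
    have e1 : (u / 2).re = u.re / 2 := by simp
    have e2 : (w ^ 2 / 2).re = (w.re ^ 2 - w.im ^ 2) / 2 := by
      simp [pow_two]
    have e3 : (w ^ 2 / 2).im = w.re * w.im := by
      simp [pow_two]
      ring
    simp only [Complex.sub_re, Complex.add_re, Complex.one_re, Complex.mul_re, Complex.conj_re,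
      Complex.conj_im, Complex.add_im, e1, e2, e3]
    ring
  have h5 : 1 + w.re - u.re / 2 - ((w.re + (w.re ^ 2 - w.im ^ 2) / 2) * u.re +
        (w.im + w.re * w.im) * u.im) -
      1 / 4 * (((w.re - u.re) ^ 2 + (w.im - u.im) ^ 2) * ((1 + w.re) ^ 2 + w.im ^ 2)) =
      (1 - (w.re ^ 2 + w.im ^ 2)) * (1 / 4 * ((1 - u.re + w.re) ^ 2 + (w.im - u.im) ^ 2 + 1)) := by
    linear_combination (-1 / 2 * (1 + w.re)) * h2
  rw [h3, h4]
  have h6 : 0 ≤ (1 - (w.re ^ 2 + w.im ^ 2)) *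
      (1 / 4 * ((1 - u.re + w.re) ^ 2 + (w.im - u.im) ^ 2 + 1)) := by
    apply mul_nonneg (by linarith)
    positivity
  linarith

theorem cf_zero {F : ℂ → ℂ} (R : ℝ) (hR : 1 < R) (hF : DifferentiableOn ℂ F (ball 0 R)) :
    cf F 0 = F 0 := by
  rw [cf_eq_tc F R hR hF]
  simp [tc]

theorem sharp2 (Ω : ℂ → ℂ) (R : ℝ) (hR : 1 < R) (hΩ : DifferentiableOn ℂ Ω (ball 0 R))
    (h0 : Ω 0 = 0) (h1 : ∀ z ∈ ball (0 : ℂ) R, ‖Ω z‖ < 1) (n : ℕ) (hn : 2 ≤ n) :
    ‖cf Ω n + 1 / 2 * ∑ k ∈ Finset.range (n + 1), cf Ω k * cf Ω (n - k)‖ ≤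
      1 - 1 / 4 * ‖cf Ω 1‖ ^ 2 := by
  have hsub : sphere (0 : ℂ) 1 ⊆ ball 0 R := by
    intro z hz
    rw [mem_sphere_zero_iff_norm] at hz
    rw [mem_ball_zero_iff, hz]
    exact hR
  have hz0 : ∀ z ∈ sphere (0 : ℂ) 1, z ≠ 0 := by
    rintro z hz rfl
    simp at hz
  have hinv : ContinuousOn (fun z : ℂ => (z ^ n)⁻¹) (sphere (0 : ℂ) 1) := by
    apply ContinuousOn.inv₀ (by fun_prop)
    intro z hz
    exact pow_ne_zero _ (hz0 z hz)
  set X : ℂ := cf Ω n + 1 / 2 * ∑ k ∈ Finset.range (n + 1), cf Ω k * cf Ω (n - k) with hX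
  obtain ⟨η, hη1, hηX⟩ : ∃ η : ℂ, ‖η‖ = 1 ∧ η * X = (‖X‖ : ℂ) := by
    by_cases hX0 : X = 0
    · exact ⟨1, by simp, by simp [hX0]⟩
    · refine ⟨(starRingEnd ℂ) X / (‖X‖ : ℂ), ?_, ?_⟩
      · rw [norm_div, RCLike.norm_conj, Complex.norm_real, norm_norm]
        exact div_self (norm_ne_zero_iff.2 hX0)
      · have h2 : (‖X‖ : ℂ) ≠ 0 := by
          rw [Complex.ofReal_ne_zero]
          exact norm_ne_zero_iff.2 hX0
        rw [div_mul_eq_mul_div, div_eq_iff h2, mul_comm ((starRingEnd ℂ) X), Complex.mul_conj,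
          Complex.normSq_eq_norm_sq]
        push_cast
        ring
  have hη0 : η ≠ 0 := by
    intro h
    rw [h, norm_zero] at hη1
    exact zero_ne_one hη1
  have hηc : (starRingEnd ℂ) η = η⁻¹ := by
    rw [Complex.inv_def, Complex.normSq_eq_norm_sq, hη1]
    simp
  -- the functions
  have hu : DifferentiableOn ℂ (fun z : ℂ => η⁻¹ * z ^ n) (ball 0 R) := by fun_prop
  have hH : DifferentiableOn ℂ (fun z => Ω z + 1 / 2 * (Ω z * Ω z)) (ball 0 R) :=
    hΩ.add ((hΩ.mul hΩ).const_mul (1 / 2 : ℂ))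
  have hB : DifferentiableOn ℂ (fun z => 1 + Ω z - (η⁻¹ * z ^ n) / 2) (ball 0 R) :=
    ((differentiableOn_const (1 : ℂ)).add hΩ).sub (hu.div_const 2)
  have hY1 : DifferentiableOn ℂ (fun z => Ω z - η⁻¹ * z ^ n) (ball 0 R) := hΩ.sub hu
  have hY2 : DifferentiableOn ℂ (fun z => 1 + Ω z) (ball 0 R) :=
    (differentiableOn_const (1 : ℂ)).add hΩ
  -- coefficients
  have eH : cf (fun z => Ω z + 1 / 2 * (Ω z * Ω z)) n = X := by
    have h3 : ContinuousOn (fun z => 1 / 2 * (Ω z * Ω z)) (sphere (0 : ℂ) 1) :=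
      ((hΩ.mul hΩ).const_mul (1 / 2 : ℂ)).continuousOn.mono hsub
    rw [cf_add (hΩ.continuousOn.mono hsub) h3, cf_smul, cf_mul _ _ R hR hΩ hΩ]
  have eB : cf (fun z => 1 + Ω z - (η⁻¹ * z ^ n) / 2) 0 = 1 := by
    rw [cf_zero R hR hB]
    rw [h0, zero_pow (by omega)]
    ring
  have eY : cf (fun z => (Ω z - η⁻¹ * z ^ n) * (1 + Ω z)) 1 = cf Ω 1 := by
    rw [cf_mul _ _ R hR hY1 hY2]
    rw [Finset.sum_range_succ, Finset.sum_range_one, cf_zero R hR hY1]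
    have h4 : cf (fun z => 1 + Ω z) (1 - 1) = 1 := by
      rw [Nat.sub_self, cf_zero R hR hY2, h0, add_zero]
    have h5 : cf (fun z => Ω z - η⁻¹ * z ^ n) 1 = cf Ω 1 := by
      have h6 : (fun z => Ω z - η⁻¹ * z ^ n) = fun z => Ω z + (-η⁻¹) * z ^ n := by
        funext z; ring
      rw [h6, cf_add (hΩ.continuousOn.mono hsub) (by fun_prop), cf_smul,
        cf_eq_tc (fun z => z ^ n) R hR (by fun_prop), tc_pow, if_neg (by omega)]
      ring
    rw [h4, h5, h0, zero_pow (by omega)]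
    ring
  -- the averages
  have hcY : ContinuousOn (fun z => (Ω z - η⁻¹ * z ^ n) * (1 + Ω z)) (sphere (0 : ℂ) 1) :=
    (hY1.mul hY2).continuousOn.mono hsub
  have hcA1 : ContinuousOn (fun z => 1 + Ω z - (η⁻¹ * z ^ n) / 2) (sphere (0 : ℂ) 1) :=
    hB.continuousOn.mono hsub
  have hcA2 : ContinuousOn (fun z => η * ((Ω z + 1 / 2 * (Ω z * Ω z)) * (z ^ n)⁻¹))
      (sphere (0 : ℂ) 1) := continuousOn_const.mul ((hH.continuousOn.mono hsub).mul hinv)
  have avA : Real.circleAverage (fun z => (1 + Ω z - (η⁻¹ * z ^ n) / 2) -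
      η * ((Ω z + 1 / 2 * (Ω z * Ω z)) * (z ^ n)⁻¹)) 0 1 = 1 - (‖X‖ : ℂ) := by
    have h7 := Real.circleAverage_fun_sub
      (f₁ := fun z => 1 + Ω z - (η⁻¹ * z ^ n) / 2)
      (f₂ := fun z => η * ((Ω z + 1 / 2 * (Ω z * Ω z)) * (z ^ n)⁻¹)) (cI hcA1) (cI hcA2)
    rw [h7]
    have h8 : Real.circleAverage (fun z => 1 + Ω z - (η⁻¹ * z ^ n) / 2) 0 1 = 1 := by
      have h81 : Real.circleAverage (fun z => 1 + Ω z - (η⁻¹ * z ^ n) / 2) 0 1 =
          cf (fun z => 1 + Ω z - (η⁻¹ * z ^ n) / 2) 0 := by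
        unfold cf
        congr 1
        funext z
        simp
      rw [h81, eB]
    have h9 : Real.circleAverage (fun z => η * ((Ω z + 1 / 2 * (Ω z * Ω z)) * (z ^ n)⁻¹)) 0 1 =
        η * X := by
      rw [← eH]
      unfold cf
      have h10 := Real.circleAverage_fun_smul (a := η)
        (f := fun z => (Ω z + 1 / 2 * (Ω z * Ω z)) * (z ^ n)⁻¹) (c := 0) (R := 1)
      simpa only [smul_eq_mul] using h10
    rw [h8, h9, hηX]
  have avRe : Real.circleAverage (fun z => ((1 + Ω z - (η⁻¹ * z ^ n) / 2) -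
      η * ((Ω z + 1 / 2 * (Ω z * Ω z)) * (z ^ n)⁻¹)).re) 0 1 = 1 - ‖X‖ := by
    have h11 := Complex.reCLM.circleAverage_comp_comm (f := fun z => (1 + Ω z - (η⁻¹ * z ^ n) / 2) -
      η * ((Ω z + 1 / 2 * (Ω z * Ω z)) * (z ^ n)⁻¹)) (c := 0) (R := 1) (cI (hcA1.sub hcA2))
    rw [avA] at h11
    have h12 : Complex.reCLM (1 - (‖X‖ : ℂ)) = 1 - ‖X‖ := by simp
    rw [h12] at h11
    exact h11
  have hb := bessel (fun z => (Ω z - η⁻¹ * z ^ n) * (1 + Ω z)) hcY {1}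
  rw [Finset.sum_singleton, eY] at hb
  have hmono : Real.circleAverage (fun z => 1 / 4 * ‖(Ω z - η⁻¹ * z ^ n) * (1 + Ω z)‖ ^ 2) 0 1 ≤
      Real.circleAverage (fun z => ((1 + Ω z - (η⁻¹ * z ^ n) / 2) -
      η * ((Ω z + 1 / 2 * (Ω z * Ω z)) * (z ^ n)⁻¹)).re) 0 1 := by
    refine Real.circleAverage_mono (cIr (continuousOn_const.mul (hcY.norm.pow 2)))
      (cIr (Complex.continuous_re.comp_continuousOn (hcA1.sub hcA2))) ?_
    intro z hz
    have hz' : z ∈ sphere (0 : ℂ) 1 := by simpa using hz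
    have hzn : ‖z‖ = 1 := by simpa using hz'
    have h13 := pointwise (Ω z) (η⁻¹ * z ^ n) (h1 z (hsub hz')).le (by
      rw [norm_mul, norm_inv, hη1, norm_pow, hzn]; simp)
    have h14 : (starRingEnd ℂ) (η⁻¹ * z ^ n) = η * (z ^ n)⁻¹ := by
      rw [map_mul, map_inv₀, hηc, inv_inv, map_pow]
      have h15 : (starRingEnd ℂ) z = z⁻¹ := by
        rw [Complex.inv_def, Complex.normSq_eq_norm_sq, hzn]
        simp
      rw [h15, inv_pow]
    rw [h14] at h13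
    refine h13.trans (le_of_eq ?_)
    congr 1
    ring
  have hsm : Real.circleAverage (fun z => 1 / 4 * ‖(Ω z - η⁻¹ * z ^ n) * (1 + Ω z)‖ ^ 2) 0 1 =
      1 / 4 * Real.circleAverage (fun z => ‖(Ω z - η⁻¹ * z ^ n) * (1 + Ω z)‖ ^ 2) 0 1 := by
    have h16 := Real.circleAverage_fun_smul (a := (1 / 4 : ℝ))
      (f := fun z => ‖(Ω z - η⁻¹ * z ^ n) * (1 + Ω z)‖ ^ 2) (c := 0) (R := 1)
    simpa only [smul_eq_mul] using h16
  rw [hsm, avRe] at hmono
  linarith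

section rec

variable (Ω : ℂ → ℂ) (R : ℝ)

theorem prod_rec (hR : 1 < R) (hΩ : DifferentiableOn ℂ Ω (ball 0 R)) (F G : ℂ → ℂ)
    (hF : ∀ w, HasDerivAt F (G w) w) (hG : Differentiable ℂ G) (N : ℕ) :
    (N : ℂ) * cf (fun z => F (Ω z)) N =
      ∑ k ∈ Finset.range (N + 1), cf (fun z => G (Ω z)) k * (((N - k : ℕ) : ℂ) * cf Ω (N - k)) := by
  have hFd : Differentiable ℂ F := fun w => (hF w).differentiableAt
  have hK : DifferentiableOn ℂ (fun z => F (Ω z)) (ball 0 R) := hFd.comp_differentiableOn hΩ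
  have hS : DifferentiableOn ℂ (fun z => G (Ω z)) (ball 0 R) := hG.comp_differentiableOn hΩ
  have hd : DifferentiableOn ℂ (deriv Ω) (ball 0 R) := hΩ.deriv isOpen_ball
  have hzd : DifferentiableOn ℂ (fun z => z * deriv Ω z) (ball 0 R) := by
    exact differentiableOn_id.mul hd
  rw [← cf_euler _ R hR hK]
  have h1 : cf (fun z => z * deriv (fun z => F (Ω z)) z) N =
      cf (fun z => G (Ω z) * (z * deriv Ω z)) N := by
    unfold cf
    apply Real.circleAverage_congr_sphere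
    intro z hz
    have hz' : z ∈ ball (0 : ℂ) R := by
      rw [mem_ball_zero_iff]
      have : ‖z‖ = 1 := by simpa using hz
      rw [this]; exact hR
    have h2 : HasDerivAt Ω (deriv Ω z) z :=
      (hΩ.differentiableAt (isOpen_ball.mem_nhds hz')).hasDerivAt
    have h3 : HasDerivAt (fun z => F (Ω z)) (G (Ω z) * deriv Ω z) z := (hF (Ω z)).comp z h2
    simp only
    rw [h3.deriv]
    ring
  rw [h1, cf_mul _ _ R hR hS hzd]
  refine Finset.sum_congr rfl fun k _ => ?_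
  rw [cf_euler Ω R hR hΩ]

end rec

theorem low_coeffs (c S K : ℕ → ℂ) (hc0 : c 0 = 0) (hS0 : S 0 = 0) (hK0 : K 0 = 1)
    (hK : ∀ N : ℕ, (N : ℂ) * K N =
      ∑ k ∈ Finset.range (N + 1), S k * (((N - k : ℕ) : ℂ) * c (N - k)))
    (hS : ∀ N : ℕ, (N : ℂ) * S N =
      ∑ k ∈ Finset.range (N + 1), K k * (((N - k : ℕ) : ℂ) * c (N - k))) :
    K 1 = 0 ∧ K 2 = 1 / 2 * (c 1 * c 1) ∧ K 3 = c 1 * c 2 ∧
    K 4 = (c 1 * c 3 + c 2 * c 2 / 2) + c 1 ^ 4 / 24 ∧
    K 5 = (c 1 * c 4 + c 2 * c 3) + c 1 ^ 3 * c 2 / 6 ∧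
    K 6 = (c 1 * c 5 + c 2 * c 4 + c 3 * c 3 / 2) +
      (c 1 ^ 3 * c 3 / 6 + c 1 ^ 2 * c 2 ^ 2 / 4 + c 1 ^ 6 / 720) := by
  have hS1 : S 1 = c 1 := by
    have h := hS 1
    norm_num [Finset.sum_range_succ, hS0, hK0, hc0] at h
    linear_combination h
  have hK1 : K 1 = 0 := by
    have h := hK 1
    norm_num [Finset.sum_range_succ, hS0, hK0, hc0] at h
    linear_combination h
  have hS2 : S 2 = c 2 := by
    have h := hS 2
    norm_num [Finset.sum_range_succ, hS0, hK0, hc0, hK1] at h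
    linear_combination h
  have hK2 : K 2 = 1 / 2 * (c 1 * c 1) := by
    have h := hK 2
    norm_num [Finset.sum_range_succ, hS0, hK0, hc0, hS1] at h
    linear_combination (1 / 2 : ℂ) * h
  have hS3 : S 3 = c 3 + c 1 ^ 3 / 6 := by
    have h := hS 3
    norm_num [Finset.sum_range_succ, hS0, hK0, hc0, hK1, hK2] at h
    linear_combination (1 / 3 : ℂ) * h
  have hK3 : K 3 = c 1 * c 2 := by
    have h := hK 3
    norm_num [Finset.sum_range_succ, hS0, hK0, hc0, hS1, hS2] at h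
    linear_combination (1 / 3 : ℂ) * h
  have hS4 : S 4 = c 4 + c 1 ^ 2 * c 2 / 2 := by
    have h := hS 4
    norm_num [Finset.sum_range_succ, hS0, hK0, hc0, hK1, hK2, hK3] at h
    linear_combination (1 / 4 : ℂ) * h
  have hK4 : K 4 = (c 1 * c 3 + c 2 * c 2 / 2) + c 1 ^ 4 / 24 := by
    have h := hK 4
    norm_num [Finset.sum_range_succ, hS0, hK0, hc0, hS1, hS2, hS3] at h
    linear_combination (1 / 4 : ℂ) * h
  have hS5 : S 5 = c 5 + (c 1 ^ 2 * c 3 + c 1 * c 2 ^ 2) / 2 + c 1 ^ 5 / 120 := by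
    have h := hS 5
    norm_num [Finset.sum_range_succ, hS0, hK0, hc0, hK1, hK2, hK3, hK4] at h
    linear_combination (1 / 5 : ℂ) * h
  have hK5 : K 5 = (c 1 * c 4 + c 2 * c 3) + c 1 ^ 3 * c 2 / 6 := by
    have h := hK 5
    norm_num [Finset.sum_range_succ, hS0, hK0, hc0, hS1, hS2, hS3, hS4] at h
    linear_combination (1 / 5 : ℂ) * h
  have hK6 : K 6 = (c 1 * c 5 + c 2 * c 4 + c 3 * c 3 / 2) +
      (c 1 ^ 3 * c 3 / 6 + c 1 ^ 2 * c 2 ^ 2 / 4 + c 1 ^ 6 / 720) := by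
    have h := hK 6
    norm_num [Finset.sum_range_succ, hS0, hK0, hc0, hS1, hS2, hS3, hS4, hS5] at h
    linear_combination (1 / 6 : ℂ) * h
  exact ⟨hK1, hK2, hK3, hK4, hK5, hK6⟩

/-- The conjectured bound for `n ≤ 6`. -/
theorem low_n (Ω : ℂ → ℂ) (R : ℝ) (hR : 1 < R) (hΩ : DifferentiableOn ℂ Ω (ball 0 R))
    (h0 : Ω 0 = 0) (h1 : ∀ z ∈ ball (0 : ℂ) R, ‖Ω z‖ < 1) (n : ℕ) (hn : 1 ≤ n) (hn6 : n ≤ 6) :
    ‖cf (fun z => Ω z + Complex.cosh (Ω z) - 1) n‖ ≤ 1 := by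
  have hsub : sphere (0 : ℂ) 1 ⊆ ball 0 R := by
    intro z hz
    rw [mem_sphere_zero_iff_norm] at hz
    rw [mem_ball_zero_iff, hz]
    exact hR
  have hKd : DifferentiableOn ℂ (fun z => Complex.cosh (Ω z)) (ball 0 R) :=
    Complex.differentiable_cosh.comp_differentiableOn hΩ
  have hSd : DifferentiableOn ℂ (fun z => Complex.sinh (Ω z)) (ball 0 R) :=
    Complex.differentiable_sinh.comp_differentiableOn hΩ
  have hc0 : cf Ω 0 = 0 := by rw [cf_zero R hR hΩ, h0]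
  obtain ⟨hK1, hK2, hK3, hK4, hK5, hK6⟩ := low_coeffs (fun k => cf Ω k)
    (fun k => cf (fun z => Complex.sinh (Ω z)) k) (fun k => cf (fun z => Complex.cosh (Ω z)) k)
    hc0 (by rw [cf_zero R hR hSd, h0, Complex.sinh_zero])
    (by rw [cf_zero R hR hKd, h0, Complex.cosh_zero])
    (prod_rec Ω R hR hΩ Complex.cosh Complex.sinh Complex.hasDerivAt_cosh
      Complex.differentiable_sinh)
    (prod_rec Ω R hR hΩ Complex.sinh Complex.cosh Complex.hasDerivAt_sinh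
      Complex.differentiable_cosh)
  have e1 : cf (fun z => Ω z + Complex.cosh (Ω z) - 1) n =
      cf Ω n + cf (fun z => Complex.cosh (Ω z)) n := by
    have h2 : (fun z => Ω z + Complex.cosh (Ω z) - 1) =
        fun z => Ω z + (Complex.cosh (Ω z) + (-1) * z ^ 0) := by
      funext z
      ring
    have h3 : ContinuousOn (fun z => Complex.cosh (Ω z)) (sphere (0 : ℂ) 1) :=
      hKd.continuousOn.mono hsub
    have h4 : ContinuousOn (fun z : ℂ => (-1 : ℂ) * z ^ 0) (sphere (0 : ℂ) 1) := by fun_prop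
    have h34 : ContinuousOn (fun z => Complex.cosh (Ω z) + (-1 : ℂ) * z ^ 0) (sphere (0 : ℂ) 1) :=
      h3.add h4
    rw [h2, cf_add (hΩ.continuousOn.mono hsub) h34, cf_add h3 h4, cf_smul,
      cf_eq_tc (fun z => z ^ 0) R hR (by fun_prop), tc_pow, if_neg (by omega)]
    ring
  rw [e1]
  have hbes : ‖cf Ω 1‖ ^ 2 + ‖cf Ω 2‖ ^ 2 + ‖cf Ω 3‖ ^ 2 ≤ 1 := by
    have h17 := bessel Ω (hΩ.continuousOn.mono hsub) (Finset.range 4)
    simp only [Finset.sum_range_succ, Finset.sum_range_zero, hc0] at h17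
    have h18 : Real.circleAverage (fun z => ‖Ω z‖ ^ 2) 0 1 ≤ 1 := by
      refine Real.circleAverage_mono_on_of_le_circle
        (cIr ((hΩ.continuousOn.mono hsub).norm.pow 2)) ?_
      intro z hz
      have hz' : z ∈ sphere (0 : ℂ) 1 := by simpa using hz
      have h18 := h1 z (hsub hz')
      have h19 : 0 ≤ ‖Ω z‖ := norm_nonneg _
      nlinarith
    norm_num at h17
    linarith
  set t := ‖cf Ω 1‖ with ht
  set q := ‖cf Ω 2‖ with hq
  set x := ‖cf Ω 3‖ with hx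
  have ht0 : 0 ≤ t := norm_nonneg _
  have hq0 : 0 ≤ q := norm_nonneg _
  have hx0 : 0 ≤ x := norm_nonneg _
  have ht1 : t ≤ 1 := by nlinarith
  have hq1 : q ≤ 1 := by nlinarith
  have sh := fun (hn2 : 2 ≤ n) => sharp2 Ω R hR hΩ h0 h1 n hn2
  interval_cases n
  · rw [hK1, add_zero]
    exact ht1
  · have h := sh (by norm_num)
    simp only [Finset.sum_range_succ, Finset.sum_range_zero, hc0] at h
    rw [hK2]
    norm_num at h
    refine le_trans (le_of_eq ?_) (h.trans ?_)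
    · congr 1
    · nlinarith
  · have h := sh (by norm_num)
    simp only [Finset.sum_range_succ, Finset.sum_range_zero, hc0] at h
    rw [hK3]
    norm_num at h
    refine le_trans (le_of_eq ?_) (h.trans ?_)
    · congr 1
      ring
    · nlinarith
  · have h := sh (by norm_num)
    simp only [Finset.sum_range_succ, Finset.sum_range_zero, hc0] at h
    rw [hK4, ← add_assoc]
    norm_num at h
    have h5 : ‖cf Ω 1 ^ 4 / 24‖ = t ^ 4 / 24 := by simp [ht]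
    refine (norm_add_le _ _).trans ?_
    rw [h5]
    have h6 : ‖cf Ω 4 + (cf Ω 1 * cf Ω 3 + cf Ω 2 * cf Ω 2 / 2)‖ ≤ 1 - 1 / 4 * t ^ 2 := by
      refine le_trans (le_of_eq ?_) h
      congr 1
      ring
    have h7 : t ^ 4 ≤ t ^ 2 := by nlinarith [mul_nonneg ht0 ht0, mul_nonneg (mul_nonneg ht0 ht0) (sub_nonneg.2 ht1)]
    nlinarith [sq_nonneg t]
  · have h := sh (by norm_num)
    simp only [Finset.sum_range_succ, Finset.sum_range_zero, hc0] at h
    rw [hK5, ← add_assoc]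
    norm_num at h
    have h5 : ‖cf Ω 1 ^ 3 * cf Ω 2 / 6‖ = t ^ 3 * q / 6 := by simp [ht, hq]
    refine (norm_add_le _ _).trans ?_
    rw [h5]
    have h6 : ‖cf Ω 5 + (cf Ω 1 * cf Ω 4 + cf Ω 2 * cf Ω 3)‖ ≤ 1 - 1 / 4 * t ^ 2 := by
      refine le_trans (le_of_eq ?_) h
      congr 1
      ring
    have h7 : t ^ 3 * q ≤ t ^ 2 := by
      have h8 : t * q ≤ 1 := by nlinarith
      calc t ^ 3 * q = t ^ 2 * (t * q) := by ring
        _ ≤ t ^ 2 * 1 := by gcongr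
        _ = t ^ 2 := mul_one _
    nlinarith [sq_nonneg t]
  · have h := sh (by norm_num)
    simp only [Finset.sum_range_succ, Finset.sum_range_zero, hc0] at h
    rw [hK6, ← add_assoc]
    norm_num at h
    have h5 : ‖cf Ω 1 ^ 3 * cf Ω 3 / 6 + cf Ω 1 ^ 2 * cf Ω 2 ^ 2 / 4 + cf Ω 1 ^ 6 / 720‖ ≤
        t ^ 3 * x / 6 + t ^ 2 * q ^ 2 / 4 + t ^ 6 / 720 := by
      refine (norm_add_le _ _).trans ?_
      refine add_le_add ((norm_add_le _ _).trans ?_) ?_
      · simp [ht, hq, hx]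
      · simp [ht]
    refine (norm_add_le _ _).trans ?_
    have h6 : ‖cf Ω 6 + (cf Ω 1 * cf Ω 5 + cf Ω 2 * cf Ω 4 + cf Ω 3 * cf Ω 3 / 2)‖ ≤
        1 - 1 / 4 * t ^ 2 := by
      refine le_trans (le_of_eq ?_) h
      congr 1
      ring
    have h7 : t ^ 3 * x / 6 + t ^ 2 * q ^ 2 / 4 + t ^ 6 / 720 ≤ 1 / 4 * t ^ 2 := by
      have h8 : t * x / 6 + q ^ 2 / 4 + t ^ 4 / 720 ≤ 1 / 4 := by
        have h9 : t ^ 4 ≤ t ^ 2 := by nlinarith [mul_nonneg ht0 ht0]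
        nlinarith [sq_nonneg (t - x)]
      calc t ^ 3 * x / 6 + t ^ 2 * q ^ 2 / 4 + t ^ 6 / 720
          = t ^ 2 * (t * x / 6 + q ^ 2 / 4 + t ^ 4 / 720) := by ring
        _ ≤ t ^ 2 * (1 / 4) := by gcongr
        _ = 1 / 4 * t ^ 2 := by ring
    linarith

end Pool.Agent.Q301.LC
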